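import Pool.Agent.Helper67.DF.Stmts

/-! DF, row GAU: the concave minorant. -/

set_option autoImplicit false

open Finset MeasureTheory

namespace Pool.Agent.Helper67.DF

open Pool.Agent.Helper67.BT (E PG Sp)

namespace Gau

/-- the numerical inequality (iii) -/
theorem num3 {P p Q q : ℝ} (hq : 0 < q) (hQ : 0 < Q) :
    2 * ((P / p - 2 + p / P) * (q / Q)) ≤
      2 * (P / p - 2 + p / P) + 5 / 2 * (P / p - 2 + p / P) ^ 2 +
        2 / 5 * ((q / Q) ^ 2 + 2 * (Q / q) - 3) := by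
  have h1 : (q / Q - 1) ^ 2 ≤ (q / Q) ^ 2 + 2 * (Q / q) - 3 := by
    set r := q / Q with hr
    have hr0 : 0 < r := div_pos hq hQ
    have h2 : Q / q = r⁻¹ := by rw [hr, inv_div]
    rw [h2]
    have h3 : r * r⁻¹ = 1 := mul_inv_cancel₀ hr0.ne'
    have h4 : 0 < r⁻¹ := inv_pos.2 hr0
    nlinarith [mul_nonneg h4.le (sq_nonneg (r - 1)), sq_nonneg (r - 1)]
  nlinarith [sq_nonneg (5 * (P / p - 2 + p / P) - 2 * (q / Q - 1)), h1]

/-- the numerical inequality (i) -/
theorem num1 {P p N S x : ℝ} (hp : 0 < p) (hP : 0 < P) (hN : 0 ≤ N)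
    (h : 0 ≤ x - 2 * √(p / P) * N + p / P * S) :
    p * ((3 - p / P) * N) - p * S ≤ P * x := by
  set t := √(p / P) with ht
  have ht0 : 0 ≤ t := Real.sqrt_nonneg _
  have ht2 : t * t = p / P := Real.mul_self_sqrt (div_nonneg hp.le hP.le)
  have hpt : p = t * t * P := by rw [ht2]; field_simp
  rw [← ht2] at h
  have h1 : 0 ≤ P * (x - 2 * t * N + t * t * S) := mul_nonneg hP.le h
  have h2 : 0 ≤ P * N * (t * ((t - 1) ^ 2 * (t + 2))) := by positivity
  have h3 : p / P = t * t := ht2.symm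
  rw [h3, hpt]
  nlinarith [h1, h2]

end Gau

open Gau in
theorem st_GAU (hGAQ : ST_GAQ) (hBQ : ST_BQ) : ST_GAU := by
  intro n k s v a hs hI ω X hω hX
  refine le_trans ?_ (hGAQ n k s v ω a X hs hI hω hX)
  set nn : Fin n → E k := nv s v a with hnn
  -- the operator `H`
  set H : E k →ₗ[ℝ] E k := ∑ l, (ω l) • ((innerₛₗ ℝ (a l)).smulRight (a l)) with hH
  have hHy : ∀ y, H y = ∑ l, (ω l * inner ℝ (a l) y) • a l := by
    intro y
    rw [hH, LinearMap.sum_apply]
    refine Finset.sum_congr rfl fun l _ => ?_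
    rw [LinearMap.smul_apply, LinearMap.smulRight_apply, innerₛₗ_apply_apply, smul_smul]
  have hXH : X * H = 1 := by
    refine LinearMap.ext fun y => ?_
    rw [Module.End.mul_apply, hHy, hX]
    rfl
  have hHX : H * X = 1 := mul_eq_one_comm.1 hXH
  have hHX' : ∀ y, H (X y) = y := by
    intro y
    have := congrArg (fun f : E k →ₗ[ℝ] E k => f y) hHX
    simpa [Module.End.mul_apply] using this
  have hin : ∀ x y : E k, inner ℝ (H x) y = ∑ l, ω l * inner ℝ (a l) x * inner ℝ (a l) y := by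
    intro x y
    rw [hHy, sum_inner]
    refine Finset.sum_congr rfl fun l _ => ?_
    rw [real_inner_smul_left]
  -- (i)
  have s1 : ∀ l, s l * ((3 - s l / ω l) * ‖nn l‖ ^ 2) -
      s l * ∑ m, ω m * inner ℝ (a m) (nn l) ^ 2 ≤ ω l * inner ℝ (X (nn l)) (nn l) := by
    intro l
    refine num1 (hs l) (hω l) (sq_nonneg _) ?_
    set t := √(s l / ω l) with ht
    have ht2 : t * t = s l / ω l := Real.mul_self_sqrt (div_nonneg (hs l).le (hω l).le)
    have h1 : 0 ≤ ∑ m, ω m * inner ℝ (a m) (X (nn l) - t • nn l) ^ 2 :=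
      Finset.sum_nonneg fun m _ => mul_nonneg (hω m).le (sq_nonneg _)
    have h2 : ∑ m, ω m * inner ℝ (a m) (X (nn l) - t • nn l) ^ 2 =
        inner ℝ (H (X (nn l))) (X (nn l)) - 2 * t * inner ℝ (H (X (nn l))) (nn l) +
          t * t * ∑ m, ω m * inner ℝ (a m) (nn l) ^ 2 := by
      rw [hin, hin, Finset.mul_sum, Finset.mul_sum, ← Finset.sum_sub_distrib,
        ← Finset.sum_add_distrib]
      refine Finset.sum_congr rfl fun m _ => ?_
      rw [inner_sub_right, real_inner_smul_right]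
      ring
    rw [hHX', real_inner_self_eq_norm_sq, real_inner_comm] at h2
    rw [h2, ht2] at h1
    exact h1
  -- (ii)
  have s2 : ∀ l, inner ℝ (X (nn l)) (nn l) ≤ ∑ m, s m * inner ℝ (a m) (nn l) ^ 2 * (s m / ω m) := by
    intro l
    have h1 : ∑ m, (s m * inner ℝ (a m) (nn l)) • a m = nn l := by
      refine ext_inner_right ℝ fun y => ?_
      rw [sum_inner, ← hI (nn l) y]
      refine Finset.sum_congr rfl fun m _ => ?_
      rw [real_inner_smul_left]
    have h2 := hBQ n k a ω (fun m => s m * inner ℝ (a m) (nn l)) X hω hX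
    simp only [h1] at h2
    refine h2.trans (le_of_eq ?_)
    refine Finset.sum_congr rfl fun m _ => ?_
    ring
  have hR : ∀ l, s l * ‖nn l‖ ^ 2 = ∑ m, s l * (s m * inner ℝ (a m) (nn l) ^ 2) := by
    intro l
    rw [← real_inner_self_eq_norm_sq, ← hI (nn l) (nn l), Finset.mul_sum]
    refine Finset.sum_congr rfl fun m _ => ?_
    ring
  -- the lower bound of one term
  have s3 : ∀ l, s l * ((3 - s l / ω l) * ‖nn l‖ ^ 2) -
      (∑ m, s l * (ω m * inner ℝ (a m) (nn l) ^ 2)) -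
      (∑ m, s l * (s m * inner ℝ (a m) (nn l) ^ 2) * (2 * ((ω l / s l - 2 + s l / ω l) *
        (s m / ω m)))) ≤
      (ω l - 2 * ((ω l - s l) ^ 2 / ω l)) * inner ℝ (X (nn l)) (nn l) := by
    intro l
    have h1 := s1 l
    have h2 := s2 l
    have hg : (ω l - s l) ^ 2 / ω l = s l * (ω l / s l - 2 + s l / ω l) := by
      have := (hs l).ne'
      have := (hω l).ne'
      field_simp
      ring
    have hg0 : 0 ≤ (ω l - s l) ^ 2 / ω l := div_nonneg (sq_nonneg _) (hω l).le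
    have h3 : 2 * ((ω l - s l) ^ 2 / ω l) * inner ℝ (X (nn l)) (nn l) ≤
        ∑ m, s l * (s m * inner ℝ (a m) (nn l) ^ 2) * (2 * ((ω l / s l - 2 + s l / ω l) *
        (s m / ω m))) := by
      refine (mul_le_mul_of_nonneg_left h2 (by positivity)).trans (le_of_eq ?_)
      rw [Finset.mul_sum, hg]
      refine Finset.sum_congr rfl fun m _ => ?_
      ring
    have h4 : s l * ∑ m, ω m * inner ℝ (a m) (nn l) ^ 2 =
        ∑ m, s l * (ω m * inner ℝ (a m) (nn l) ^ 2) := Finset.mul_sum _ _ _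
    rw [h4] at h1
    rw [sub_mul]
    linarith
  refine le_trans ?_ (Finset.sum_le_sum fun l _ => s3 l)
  -- the comparison with `ph`
  have hC : ∀ f : Fin n → ℝ, ∑ l, Cl s v a l * f l =
      ∑ l, ∑ m, s l * (s m * inner ℝ (a m) (nn l) ^ 2) * f m := by
    intro f
    rw [Finset.sum_comm]
    refine Finset.sum_congr rfl fun m _ => ?_
    unfold Cl
    rw [Finset.sum_mul]
    refine Finset.sum_congr rfl fun l _ => ?_
    ring
  have hph : ∑ l, ph s v a l (ω l) = ∑ l, (s l * ‖nn l‖ ^ 2) * (3 - s l / ω l -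
      2 * (ω l / s l - 2 + s l / ω l) - 5 / 2 * (ω l / s l - 2 + s l / ω l) ^ 2) -
      ∑ l, Cl s v a l * (ω l / s l + 2 / 5 * ((s l / ω l) ^ 2 + 2 * (ω l / s l) - 3)) := by
    unfold ph
    rw [Finset.sum_sub_distrib]
  rw [hph, hC, ← Finset.sum_sub_distrib]
  refine Finset.sum_le_sum fun l _ => ?_
  have h5 : ∑ m, s l * (s m * inner ℝ (a m) (nn l) ^ 2) * (2 * ((ω l / s l - 2 + s l / ω l) *
        (s m / ω m))) ≤
      s l * ‖nn l‖ ^ 2 * (2 * (ω l / s l - 2 + s l / ω l) +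
        5 / 2 * (ω l / s l - 2 + s l / ω l) ^ 2) +
      ∑ m, s l * (s m * inner ℝ (a m) (nn l) ^ 2) *
        (2 / 5 * ((s m / ω m) ^ 2 + 2 * (ω m / s m) - 3)) := by
    rw [hR l, Finset.sum_mul, ← Finset.sum_add_distrib]
    refine Finset.sum_le_sum fun m _ => ?_
    have h6 : 0 ≤ s l * (s m * inner ℝ (a m) (nn l) ^ 2) :=
      mul_nonneg (hs l).le (mul_nonneg (hs m).le (sq_nonneg _))
    rw [← mul_add]
    exact mul_le_mul_of_nonneg_left (num3 (hs m) (hω m)) h6
  have h7 : ∑ m, s l * (s m * inner ℝ (a m) (nn l) ^ 2) *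
      (ω m / s m + 2 / 5 * ((s m / ω m) ^ 2 + 2 * (ω m / s m) - 3)) =
      ∑ m, s l * (ω m * inner ℝ (a m) (nn l) ^ 2) +
      ∑ m, s l * (s m * inner ℝ (a m) (nn l) ^ 2) *
        (2 / 5 * ((s m / ω m) ^ 2 + 2 * (ω m / s m) - 3)) := by
    rw [← Finset.sum_add_distrib]
    refine Finset.sum_congr rfl fun m _ => ?_
    have := (hs m).ne'
    rw [mul_add]
    congr 1
    field_simp
  rw [h7]
  linarith

end Pool.Agent.Helper67.DF
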