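import Pool.Agent.Helper67.DF.Stmts
import Pool.Agent.Helper20.BT.SDE
import Pool.Agent.Helper24.BT.SEC

/-! DF, row SEC: log-concavity of the integral at the exponent 11/5. -/

set_option autoImplicit false

open Finset MeasureTheory

namespace Pool.Agent.Helper67.DF

open Pool.Agent.Helper67.BT (E PG Sp wt Xt sec_a sec_sp sec_key st_SDE)

theorem st_SEC (hL : ST_LOC) : ST_SEC := by
  intro n k a τ v ha
  have hp : (2 : ℝ) < 11 / 5 := by norm_num
  obtain ⟨I0, I1, I2, D1, D2⟩ := st_SDE n k a (11 / 5) τ v hp.le ha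
  have hpos : ∀ t, 0 < ∫ y, wt a (11 / 5) τ v t y := by
    intro t
    have := I0 t
    unfold wt at this ⊢
    exact integral_exp_pos this
  have hd : ∀ t, HasDerivAt (fun t => Real.log (∫ y, wt a (11 / 5) τ v t y))
      ((-∫ y, Xt a (11 / 5) τ v 1 t y * wt a (11 / 5) τ v t y) /
        ∫ y, wt a (11 / 5) τ v t y) t := fun t =>
    (D1 t).log (hpos t).ne'
  have hderiv : deriv (fun t => Real.log (∫ y, wt a (11 / 5) τ v t y)) =
      fun t => (-∫ y, Xt a (11 / 5) τ v 1 t y * wt a (11 / 5) τ v t y) /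
        ∫ y, wt a (11 / 5) τ v t y :=
    funext fun t => (hd t).deriv
  have hd2 : ∀ t, HasDerivAt (fun t => (-∫ y, Xt a (11 / 5) τ v 1 t y * wt a (11 / 5) τ v t y) /
      ∫ y, wt a (11 / 5) τ v t y)
      (((-∫ y, (Xt a (11 / 5) τ v 2 t y - Xt a (11 / 5) τ v 1 t y ^ 2) *
        wt a (11 / 5) τ v t y) *
        (∫ y, wt a (11 / 5) τ v t y) - (-∫ y, Xt a (11 / 5) τ v 1 t y * wt a (11 / 5) τ v t y) *
        (-∫ y, Xt a (11 / 5) τ v 1 t y * wt a (11 / 5) τ v t y)) /
          (∫ y, wt a (11 / 5) τ v t y) ^ 2) t := fun t =>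
    ((D2 t).neg).div (D1 t) (hpos t).ne'
  refine concaveOn_univ_of_deriv2_nonpos (fun t => (hd t).differentiableAt) ?_ ?_
  · rw [hderiv]
    exact fun t => (hd2 t).differentiableAt
  · intro t
    rw [Function.iterate_succ, Function.comp_apply, Function.iterate_one, hderiv, (hd2 t).deriv]
    refine div_nonpos_of_nonpos_of_nonneg ?_ (sq_nonneg _)
    have hsplit : ∫ y, (Xt a (11 / 5) τ v 2 t y - Xt a (11 / 5) τ v 1 t y ^ 2) *
          wt a (11 / 5) τ v t y =
        (∫ y, Xt a (11 / 5) τ v 2 t y * wt a (11 / 5) τ v t y) -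
        ∫ y, Xt a (11 / 5) τ v 1 t y ^ 2 * wt a (11 / 5) τ v t y := by
      rw [← integral_sub (I2 t) (I1 t)]
      refine integral_congr_ae (Filter.Eventually.of_forall fun y => ?_)
      ring
    rw [hsplit]
    have hk := sec_key n a (11 / 5) τ v hp t
      (hL n k (sec_a a (11 / 5) τ v t) v (sec_sp a (11 / 5) τ v t ha))
    nlinarith [hk]

end Pool.Agent.Helper67.DF
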