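import Pool.Agent.Helper67.DF.Stmts

/-! DF, row STEP: one rotation. -/

set_option autoImplicit false

open Finset MeasureTheory

namespace Pool.Agent.Helper67.DF

open Pool.Agent.Helper67.BT (E PG Sp PG_const PG_add PG_mul PG_sum PG_inner)

namespace Stp

/-- continuous functions of polynomial growth of two variables -/
def PG2 {k : ℕ} (F : E k × E k → ℝ) : Prop :=
  Continuous F ∧ ∃ (C : ℝ) (N : ℕ), 0 ≤ C ∧
    ∀ q, |F q| ≤ C * ((1 + ‖q.1‖) ^ N * (1 + ‖q.2‖) ^ N)

variable {k : ℕ}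

theorem one_le_pow' (x : E k) (N : ℕ) : 1 ≤ (1 + ‖x‖) ^ N :=
  one_le_pow₀ (by linarith [norm_nonneg x])

theorem pow_mono' (x : E k) {N M : ℕ} (h : N ≤ M) : (1 + ‖x‖) ^ N ≤ (1 + ‖x‖) ^ M :=
  pow_le_pow_right₀ (by linarith [norm_nonneg x]) h

theorem PG2.of_le {F G : E k × E k → ℝ} (hF : Continuous F) (hG : PG2 G) (h : ∀ q, |F q| ≤ G q) :
    PG2 F := by
  obtain ⟨_, C, N, hC, hb⟩ := hG
  exact ⟨hF, C, N, hC, fun q => (h q).trans ((le_abs_self _).trans (hb q))⟩

theorem PG2.fst {f : E k → ℝ} (hf : PG f) : PG2 (fun q : E k × E k => f q.1) := by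
  obtain ⟨hc, C, N, hC, hb⟩ := hf
  refine ⟨hc.comp continuous_fst, C, N, hC, fun q => (hb q.1).trans ?_⟩
  refine mul_le_mul_of_nonneg_left ?_ hC
  exact le_mul_of_one_le_right (by positivity) (one_le_pow' _ _)

theorem PG2.snd {f : E k → ℝ} (hf : PG f) : PG2 (fun q : E k × E k => f q.2) := by
  obtain ⟨hc, C, N, hC, hb⟩ := hf
  refine ⟨hc.comp continuous_snd, C, N, hC, fun q => (hb q.2).trans ?_⟩
  refine mul_le_mul_of_nonneg_left ?_ hC
  exact le_mul_of_one_le_left (by positivity) (one_le_pow' _ _)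

theorem PG2.add {F G : E k × E k → ℝ} (hF : PG2 F) (hG : PG2 G) : PG2 (fun q => F q + G q) := by
  obtain ⟨h1, C, N, hC, h2⟩ := hF
  obtain ⟨h3, D, M, hD, h4⟩ := hG
  refine ⟨h1.add h3, C + D, max N M, by positivity, fun q => ?_⟩
  have e1 : C * ((1 + ‖q.1‖) ^ N * (1 + ‖q.2‖) ^ N) ≤
      C * ((1 + ‖q.1‖) ^ (max N M) * (1 + ‖q.2‖) ^ (max N M)) :=
    mul_le_mul_of_nonneg_left (mul_le_mul (pow_mono' _ (le_max_left _ _))
      (pow_mono' _ (le_max_left _ _)) (by positivity) (by positivity)) hC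
  have e2 : D * ((1 + ‖q.1‖) ^ M * (1 + ‖q.2‖) ^ M) ≤
      D * ((1 + ‖q.1‖) ^ (max N M) * (1 + ‖q.2‖) ^ (max N M)) :=
    mul_le_mul_of_nonneg_left (mul_le_mul (pow_mono' _ (le_max_right _ _))
      (pow_mono' _ (le_max_right _ _)) (by positivity) (by positivity)) hD
  rw [add_mul]
  exact (abs_add_le _ _).trans (add_le_add ((h2 q).trans e1) ((h4 q).trans e2))

theorem PG2.mul {F G : E k × E k → ℝ} (hF : PG2 F) (hG : PG2 G) : PG2 (fun q => F q * G q) := by
  obtain ⟨h1, C, N, hC, h2⟩ := hF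
  obtain ⟨h3, D, M, hD, h4⟩ := hG
  refine ⟨h1.mul h3, C * D, N + M, by positivity, fun q => ?_⟩
  rw [abs_mul, pow_add, pow_add]
  calc |F q| * |G q| ≤ (C * ((1 + ‖q.1‖) ^ N * (1 + ‖q.2‖) ^ N)) *
        (D * ((1 + ‖q.1‖) ^ M * (1 + ‖q.2‖) ^ M)) :=
        mul_le_mul (h2 q) (h4 q) (abs_nonneg _) (by positivity)
    _ = _ := by ring

theorem PG2.const (a : ℝ) : PG2 (fun _ : E k × E k => a) := PG2.fst (PG_const a)

theorem PG2.sum {ι : Type} (s : Finset ι) {F : ι → E k × E k → ℝ} (hF : ∀ i ∈ s, PG2 (F i)) :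
    PG2 (fun q => ∑ i ∈ s, F i q) := by
  classical
  induction s using Finset.induction_on with
  | empty => simpa using PG2.const (k := k) 0
  | insert a s ha ih =>
    simp only [Finset.sum_insert ha]
    exact PG2.add (hF a (Finset.mem_insert_self _ _))
      (ih fun i hi => hF i (Finset.mem_insert_of_mem hi))

/-- the growth of the concave functions -/
theorem growth {n : ℕ} {c L : ℝ} {φ : Fin n → ℝ → ℝ} (hF : FH c L φ) (l : Fin n) {s : ℝ}
    (hs : c ≤ s) : |φ l s| ≤ |φ l c| + |L| * (1 + |s| + |c|) * (|s| + |c|) := by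
  have h1 := hF.2 l s c hs le_rfl
  have h2 : |φ l s| ≤ |φ l c| + |φ l s - φ l c| := by
    have := abs_add_le (φ l c) (φ l s - φ l c)
    rwa [add_sub_cancel] at this
  have h3 : L * (1 + s + c) * |s - c| ≤ |L| * (1 + |s| + |c|) * (|s| + |c|) := by
    have h4 : |s - c| ≤ |s| + |c| := abs_sub _ _
    have h5 : L * (1 + s + c) ≤ |L| * (1 + |s| + |c|) := by
      have h6 : L * (1 + s + c) ≤ |L| * |1 + s + c| := by
        rw [← abs_mul]; exact le_abs_self _
      refine h6.trans (mul_le_mul_of_nonneg_left ?_ (abs_nonneg _))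
      have h7 : |1 + s + c| ≤ |1 + s| + |c| := abs_add_le _ _
      have h8 : |1 + s| ≤ |1| + |s| := abs_add_le _ _
      rw [abs_one] at h8
      linarith
    calc L * (1 + s + c) * |s - c| ≤ |L| * (1 + |s| + |c|) * |s - c| :=
          mul_le_mul_of_nonneg_right h5 (abs_nonneg _)
      _ ≤ _ := mul_le_mul_of_nonneg_left h4 (by positivity)
  linarith

theorem contOn {n : ℕ} {c L : ℝ} (hc : 0 < c) {φ : Fin n → ℝ → ℝ} (hF : FH c L φ) (l : Fin n) :
    ContinuousOn (φ l) (Set.Ici c) := by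
  refine ((hF.1 l).continuousOn isOpen_Ioi).mono ?_
  intro x hx
  exact lt_of_lt_of_le hc hx

theorem PG2.phi {n : ℕ} {c L : ℝ} (hc : 0 < c) {φ : Fin n → ℝ → ℝ} (hF : FH c L φ) (l : Fin n)
    {g : E k × E k → ℝ} (hg : PG2 g) (hlo : ∀ q, c ≤ g q) : PG2 (fun q => φ l (g q)) := by
  have hga : PG2 (fun q => |g q|) := by
    obtain ⟨h1, C, N, hC, h2⟩ := hg
    exact ⟨h1.abs, C, N, hC, fun q => by rw [abs_abs]; exact h2 q⟩
  refine PG2.of_le (G := fun q => |φ l c| + |L| * (1 + |g q| + |c|) * (|g q| + |c|)) ?_ ?_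
    fun q => growth hF l (hlo q)
  · have h1 := (contOn hc hF l).comp_continuous hg.1 (fun q => hlo q)
    exact h1
  · exact PG2.add (PG2.const _) (PG2.mul (PG2.mul (PG2.const _)
      (PG2.add (PG2.add (PG2.const _) hga) (PG2.const _))) (PG2.add hga (PG2.const _)))

theorem PG_phi {n : ℕ} {c L : ℝ} (hc : 0 < c) {φ : Fin n → ℝ → ℝ} (hF : FH c L φ) (l : Fin n)
    {g : E k → ℝ} (hg : PG g) (hlo : ∀ x, c ≤ g x) : PG (fun x => φ l (g x)) := by
  obtain ⟨h1, C, N, hC, h2⟩ := PG2.phi hc hF l (PG2.fst hg) fun q => hlo q.1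
  refine ⟨(contOn hc hF l).comp_continuous hg.1 (fun q => hlo q), C, N, hC, fun x => ?_⟩
  have := h2 (x, 0)
  simpa using this

end Stp

open Stp in
theorem st_STEP (hROE : ST_ROE) (hIG : ST_IG) (_ : ST_PB) (_ : ST_CLR) : ST_STEP := by
  intro n k a m φ c L α K B U ψ w hSp hFH hPF hz
  have hc := hPF.c0
  obtain ⟨δ, hδ, hIG'⟩ := hIG n k a hSp c hc
  obtain ⟨-, hVc, hVe, hPG, hInt, hZ⟩ := hIG' K α U ψ w hPF
  set Z : ℝ := J a U fun _ => 1 with hZdef
  set e : E k → ℝ := fun x => Real.exp (-(VV a U x)) with he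
  have hψ : ∀ l, PG (fun x : E k => ψ l (inner ℝ (a l) x)) := fun l => (hPG l).1
  have hw : ∀ l, PG (fun x : E k => w l (inner ℝ (a l) x)) := fun l => (hPG l).2.1
  have hec : Continuous e := by
    rw [he]
    exact Real.continuous_exp.comp hVc.neg
  have he0 : ∀ x, 0 < e x := fun x => Real.exp_pos _
  -- integrability on the product
  have int2 : ∀ F : E k × E k → ℝ, PG2 F →
      Integrable (fun q : E k × E k => F q * e q.1 * e q.2) := by
    intro F hF
    obtain ⟨h1, C, N, hC, h2⟩ := hF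
    have hN : PG (fun x : E k => (1 + ‖x‖) ^ N) :=
      ⟨by fun_prop, 1, N, zero_le_one, fun x => by
        rw [one_mul, abs_of_nonneg (by positivity)]⟩
    have h3 := hInt _ hN
    have h4 := (h3.mul_prod h3).const_mul C
    refine Integrable.mono' h4 ?_ (Filter.Eventually.of_forall fun q => ?_)
    · exact ((h1.mul (hec.comp continuous_fst)).mul
        (hec.comp continuous_snd)).aestronglyMeasurable
    · rw [Real.norm_eq_abs, abs_mul, abs_mul, abs_of_pos (he0 q.1), abs_of_pos (he0 q.2)]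
      calc |F q| * e q.1 * e q.2 ≤ C * ((1 + ‖q.1‖) ^ N * (1 + ‖q.2‖) ^ N) * e q.1 * e q.2 := by
            have h5 := h2 q
            have h6 := (he0 q.1).le
            have h7 := (he0 q.2).le
            exact mul_le_mul_of_nonneg_right (mul_le_mul_of_nonneg_right h5 h6) h7
        _ = _ := by simp only [he]; ring
  -- product formula
  have prod2 : ∀ f g : E k → ℝ, ∫ q : E k × E k, f q.1 * g q.2 * e q.1 * e q.2 =
      J a U f * J a U g := by
    intro f g
    have h1 := integral_prod_mul (μ := (volume : Measure (E k))) (ν := (volume : Measure (E k)))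
      (fun x => f x * e x) (fun x => g x * e x)
    unfold J
    rw [← h1]
    refine integral_congr_ae (Filter.Eventually.of_forall fun q => ?_)
    ring
  have odd0 : ∀ f : E k → ℝ, (∀ x, f (-x) = -f x) → J a U f = 0 := by
    intro f hf
    have h1 : J a U f = - J a U f := by
      unfold J
      rw [← integral_neg, ← integral_neg_eq_self (fun x => f x * Real.exp (-(VV a U x)))]
      refine integral_congr_ae (Filter.Eventually.of_forall fun x => ?_)
      simp only [hf, hVe]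
      ring
    linarith
  -- the three functions of two variables
  set G1 : E k → E k → ℝ := fun x y =>
    ∑ l, φ l ((w l (inner ℝ (a l) x) + w l (inner ℝ (a l) y)) / 2) with hG1
  set G2 : E k → E k → ℝ := fun x y =>
    ∑ l, (ψ l (inner ℝ (a l) x) + ψ l (inner ℝ (a l) y)) *
      (inner ℝ (m l) x + inner ℝ (m l) y) / 2 with hG2
  set G3 : E k → E k → ℝ := fun x y =>
    1 + ∑ l, (w l (inner ℝ (a l) x) + w l (inner ℝ (a l) y)) / 2 with hG3
  have hlo : ∀ l (x : E k), c ≤ w l (inner ℝ (a l) x) := fun l x => hPF.lo l _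
  have hws : ∀ l, PG2 (fun q : E k × E k =>
      (w l (inner ℝ (a l) q.1) + w l (inner ℝ (a l) q.2)) / 2) := by
    intro l
    have h1 := PG2.mul (PG2.add (PG2.fst (hw l)) (PG2.snd (hw l))) (PG2.const (2 : ℝ)⁻¹)
    simpa only [div_eq_mul_inv] using h1
  have hP1 : PG2 (fun q : E k × E k => G1 q.1 q.2) := by
    rw [hG1]
    refine PG2.sum _ fun l _ => PG2.phi hc hFH l (hws l) fun q => ?_
    have h1 := hlo l q.1
    have h2 := hlo l q.2
    linarith
  have hP2 : PG2 (fun q : E k × E k => G2 q.1 q.2) := by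
    rw [hG2]
    refine PG2.sum _ fun l _ => ?_
    have h1 := PG2.mul (PG2.mul (PG2.add (PG2.fst (hψ l)) (PG2.snd (hψ l)))
      (PG2.add (PG2.fst (PG_inner (m l))) (PG2.snd (PG_inner (m l))))) (PG2.const (2 : ℝ)⁻¹)
    simpa only [div_eq_mul_inv] using h1
  have hP3 : PG2 (fun q : E k × E k => G3 q.1 q.2) := by
    rw [hG3]
    exact PG2.add (PG2.const 1) (PG2.sum _ fun l _ => hws l)
  obtain ⟨i1, e1⟩ := hROE n k a c K α U ψ w hSp hPF G1 (int2 _ hP1)
  obtain ⟨i2, e2⟩ := hROE n k a c K α U ψ w hSp hPF G2 (int2 _ hP2)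
  obtain ⟨i3, e3⟩ := hROE n k a c K α U ψ w hSp hPF G3 (int2 _ hP3)
  -- the rotated functions
  have hxp : ∀ (b u z : E k), inner ℝ b (xp u z) = (inner ℝ b u + inner ℝ b z) / √2 := by
    intro b u z
    unfold xp
    rw [inner_smul_right, inner_add_right, div_eq_inv_mul]
  have hxm : ∀ (b u z : E k), inner ℝ b (xm u z) = (inner ℝ b u - inner ℝ b z) / √2 := by
    intro b u z
    unfold xm
    rw [inner_smul_right, inner_sub_right, div_eq_inv_mul]
  have h2 : √2 * √2 = (2 : ℝ) := Real.mul_self_sqrt (by norm_num)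
  have h20 : √2 ≠ (0 : ℝ) := by positivity
  have r1 : ∀ z u : E k, ∑ l, φ l (rW w (bb a z) l (inner ℝ (a l) u)) =
      G1 (xp u z) (xm u z) := by
    intro z u
    rw [hG1]
    refine Finset.sum_congr rfl fun l _ => ?_
    rw [hxp, hxm]
    rfl
  have r2 : ∀ z u : E k, ∑ l, rP ψ (bb a z) l (inner ℝ (a l) u) * inner ℝ (m l) u =
      G2 (xp u z) (xm u z) := by
    intro z u
    rw [hG2]
    refine Finset.sum_congr rfl fun l _ => ?_
    rw [hxp, hxm, hxp, hxm]
    unfold rP bb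
    have h3 : (inner ℝ (m l) u + inner ℝ (m l) z) / √2 + (inner ℝ (m l) u - inner ℝ (m l) z) / √2 =
        √2 * inner ℝ (m l) u := by
      rw [← add_div, div_eq_iff h20]
      linear_combination (-(inner ℝ (m l) u)) * h2
    rw [h3]
    rw [div_mul_eq_mul_div, div_eq_div_iff h20 two_ne_zero]
    linear_combination (-(ψ l ((inner ℝ (a l) u + inner ℝ (a l) z) / √2) +
      ψ l ((inner ℝ (a l) u - inner ℝ (a l) z) / √2)) * inner ℝ (m l) u) * h2
  have r3 : ∀ z u : E k, 1 + ∑ l, rW w (bb a z) l (inner ℝ (a l) u) =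
      G3 (xp u z) (xm u z) := by
    intro z u
    rw [hG3]
    change _ = 1 + ∑ l, _
    congr 1
    refine Finset.sum_congr rfl fun l _ => ?_
    rw [hxp, hxm]
    rfl
  have hz' : ∀ z, J a (rU U (bb a z)) (fun u => G1 (xp u z) (xm u z)) ≤
      J a (rU U (bb a z)) (fun u => G2 (xp u z) (xm u z)) +
      B * J a (rU U (bb a z)) fun u => G3 (xp u z) (xm u z) := by
    intro z
    have := hz z
    simp only [r1, r2, r3] at this
    exact this
  have hI : ∫ q : E k × E k, G1 q.1 q.2 * e q.1 * e q.2 ≤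
      (∫ q : E k × E k, G2 q.1 q.2 * e q.1 * e q.2) +
      B * ∫ q : E k × E k, G3 q.1 q.2 * e q.1 * e q.2 := by
    simp only [he]
    rw [e1, e2, e3, ← integral_const_mul, ← integral_add i2 (i3.const_mul B)]
    exact integral_mono i1 (i2.add (i3.const_mul B)) hz'
  -- first term
  have hφPG : ∀ l, PG (fun x : E k => φ l (w l (inner ℝ (a l) x))) := fun l =>
    PG_phi hc hFH l (hw l) fun x => hlo l x
  have hφS : PG (fun x : E k => ∑ l, φ l (w l (inner ℝ (a l) x))) := PG_sum _ fun l _ => hφPG l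
  have t1 : Z * J a U (fun x => ∑ l, φ l (w l (inner ℝ (a l) x))) ≤
      ∫ q : E k × E k, G1 q.1 q.2 * e q.1 * e q.2 := by
    have h3 := prod2 (fun x => ∑ l, φ l (w l (inner ℝ (a l) x))) (fun _ => 1)
    have h4 := prod2 (fun _ => 1) (fun x => ∑ l, φ l (w l (inner ℝ (a l) x)))
    have i3 : Integrable (fun q : E k × E k =>
        (∑ l, φ l (w l (inner ℝ (a l) q.1))) * 1 * e q.1 * e q.2) :=
      int2 _ (PG2.mul (PG2.fst hφS) (PG2.const 1))
    have i4 : Integrable (fun q : E k × E k =>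
        1 * (∑ l, φ l (w l (inner ℝ (a l) q.2))) * e q.1 * e q.2) :=
      int2 _ (PG2.mul (PG2.const 1) (PG2.snd hφS))
    have h5 : Z * J a U (fun x => ∑ l, φ l (w l (inner ℝ (a l) x))) =
        ∫ q : E k × E k, (1 / 2 : ℝ) *
          ((∑ l, φ l (w l (inner ℝ (a l) q.1))) * 1 * e q.1 * e q.2 +
          1 * (∑ l, φ l (w l (inner ℝ (a l) q.2))) * e q.1 * e q.2) := by
      rw [integral_const_mul, integral_add i3 i4, h3, h4]
      ring
    rw [h5]
    refine integral_mono ((i3.add i4).const_mul _) (int2 _ hP1) fun q => ?_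
    have h6 : (∑ l, φ l (w l (inner ℝ (a l) q.1)) + ∑ l, φ l (w l (inner ℝ (a l) q.2))) / 2 ≤
        G1 q.1 q.2 := by
      rw [hG1, ← Finset.sum_add_distrib, Finset.sum_div]
      refine Finset.sum_le_sum fun l _ => ?_
      have hx1 : w l (inner ℝ (a l) q.1) ∈ Set.Ioi (0 : ℝ) := lt_of_lt_of_le hc (hlo l _)
      have hx2 : w l (inner ℝ (a l) q.2) ∈ Set.Ioi (0 : ℝ) := lt_of_lt_of_le hc (hlo l _)
      have hh : (0 : ℝ) ≤ 1 / 2 := by norm_num
      have hh1 : (1 / 2 : ℝ) + 1 / 2 = 1 := by norm_num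
      have h7 := (hFH.1 l).2 hx1 hx2 hh hh hh1
      simp only [smul_eq_mul] at h7
      have h8 : (1 / 2 : ℝ) * w l (inner ℝ (a l) q.1) + 1 / 2 * w l (inner ℝ (a l) q.2) =
          (w l (inner ℝ (a l) q.1) + w l (inner ℝ (a l) q.2)) / 2 := by ring
      rw [h8] at h7
      linarith
    have h9 : 0 < e q.1 * e q.2 := mul_pos (he0 _) (he0 _)
    have h10 := mul_le_mul_of_nonneg_right h6 h9.le
    nlinarith [h10]
  -- second term
  have t2 : ∫ q : E k × E k, G2 q.1 q.2 * e q.1 * e q.2 =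
      Z * J a U (fun x => ∑ l, ψ l (inner ℝ (a l) x) * inner ℝ (m l) x) := by
    have hs : ∀ l, ∫ q : E k × E k, (ψ l (inner ℝ (a l) q.1) + ψ l (inner ℝ (a l) q.2)) *
        (inner ℝ (m l) q.1 + inner ℝ (m l) q.2) / 2 * e q.1 * e q.2 =
        Z * J a U (fun x => ψ l (inner ℝ (a l) x) * inner ℝ (m l) x) := by
      intro l
      have p1 := prod2 (fun x => ψ l (inner ℝ (a l) x) * inner ℝ (m l) x) (fun _ => 1)
      have p2 := prod2 (fun _ => 1) (fun x => ψ l (inner ℝ (a l) x) * inner ℝ (m l) x)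
      have p3 := prod2 (fun x => ψ l (inner ℝ (a l) x)) (fun x => inner ℝ (m l) x)
      have p4 := prod2 (fun x => inner ℝ (m l) x) (fun x => ψ l (inner ℝ (a l) x))
      have q1 : Integrable (fun q : E k × E k =>
          ψ l (inner ℝ (a l) q.1) * inner ℝ (m l) q.1 * 1 * e q.1 * e q.2) :=
        int2 _ (PG2.mul (PG2.fst (PG_mul (hψ l) (PG_inner (m l)))) (PG2.const 1))
      have q2 : Integrable (fun q : E k × E k =>
          1 * (ψ l (inner ℝ (a l) q.2) * inner ℝ (m l) q.2) * e q.1 * e q.2) :=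
        int2 _ (PG2.mul (PG2.const 1) (PG2.snd (PG_mul (hψ l) (PG_inner (m l)))))
      have q3 : Integrable (fun q : E k × E k =>
          ψ l (inner ℝ (a l) q.1) * inner ℝ (m l) q.2 * e q.1 * e q.2) :=
        int2 _ (PG2.mul (PG2.fst (hψ l)) (PG2.snd (PG_inner (m l))))
      have q4 : Integrable (fun q : E k × E k =>
          inner ℝ (m l) q.1 * ψ l (inner ℝ (a l) q.2) * e q.1 * e q.2) :=
        int2 _ (PG2.mul (PG2.fst (PG_inner (m l))) (PG2.snd (hψ l)))
      have hm0 : J a U (fun x => inner ℝ (m l) x) = 0 := odd0 _ fun x => inner_neg_right _ _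
      have h3 : ∫ q : E k × E k, (ψ l (inner ℝ (a l) q.1) + ψ l (inner ℝ (a l) q.2)) *
          (inner ℝ (m l) q.1 + inner ℝ (m l) q.2) / 2 * e q.1 * e q.2 =
          ∫ q : E k × E k, (1 / 2 : ℝ) *
            ((ψ l (inner ℝ (a l) q.1) * inner ℝ (m l) q.1 * 1 * e q.1 * e q.2 +
              1 * (ψ l (inner ℝ (a l) q.2) * inner ℝ (m l) q.2) * e q.1 * e q.2) +
            (ψ l (inner ℝ (a l) q.1) * inner ℝ (m l) q.2 * e q.1 * e q.2 +
              inner ℝ (m l) q.1 * ψ l (inner ℝ (a l) q.2) * e q.1 * e q.2)) := by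
        refine integral_congr_ae (Filter.Eventually.of_forall fun q => ?_)
        ring
      have q12 : Integrable (fun q : E k × E k =>
          ψ l (inner ℝ (a l) q.1) * inner ℝ (m l) q.1 * 1 * e q.1 * e q.2 +
          1 * (ψ l (inner ℝ (a l) q.2) * inner ℝ (m l) q.2) * e q.1 * e q.2) := q1.add q2
      have q34 : Integrable (fun q : E k × E k =>
          ψ l (inner ℝ (a l) q.1) * inner ℝ (m l) q.2 * e q.1 * e q.2 +
          inner ℝ (m l) q.1 * ψ l (inner ℝ (a l) q.2) * e q.1 * e q.2) := q3.add q4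
      rw [h3, integral_const_mul, integral_add q12 q34, integral_add q1 q2,
        integral_add q3 q4, p1, p2, p3, p4, hm0]
      ring
    have h4 : (fun q : E k × E k => G2 q.1 q.2 * e q.1 * e q.2) = fun q => ∑ l,
        (ψ l (inner ℝ (a l) q.1) + ψ l (inner ℝ (a l) q.2)) *
        (inner ℝ (m l) q.1 + inner ℝ (m l) q.2) / 2 * e q.1 * e q.2 := by
      funext q
      rw [hG2]
      simp only [Finset.sum_mul]
    rw [h4, integral_finsetSum]
    · simp only [hs]
      rw [← Finset.mul_sum]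
      congr 1
      unfold J
      rw [← integral_finsetSum]
      · refine integral_congr_ae (Filter.Eventually.of_forall fun x => ?_)
        simp only [Finset.sum_mul]
      · intro l _
        exact hInt _ (PG_mul (hψ l) (PG_inner (m l)))
    · intro l _
      have h1 := PG2.mul (PG2.mul (PG2.add (PG2.fst (hψ l)) (PG2.snd (hψ l)))
        (PG2.add (PG2.fst (PG_inner (m l))) (PG2.snd (PG_inner (m l))))) (PG2.const (2 : ℝ)⁻¹)
      have h2 := int2 _ h1
      simpa only [div_eq_mul_inv] using h2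
  -- third term
  have t3 : ∫ q : E k × E k, G3 q.1 q.2 * e q.1 * e q.2 =
      Z * J a U (fun x => 1 + ∑ l, w l (inner ℝ (a l) x)) := by
    have hS : PG (fun x : E k => 1 + ∑ l, w l (inner ℝ (a l) x)) :=
      PG_add (PG_const 1) (PG_sum _ fun l _ => hw l)
    have p1 := prod2 (fun x => 1 + ∑ l, w l (inner ℝ (a l) x)) (fun _ => 1)
    have p2 := prod2 (fun _ => 1) (fun x => 1 + ∑ l, w l (inner ℝ (a l) x))
    have q1 : Integrable (fun q : E k × E k =>
        (1 + ∑ l, w l (inner ℝ (a l) q.1)) * 1 * e q.1 * e q.2) :=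
      int2 _ (PG2.mul (PG2.fst hS) (PG2.const 1))
    have q2 : Integrable (fun q : E k × E k =>
        1 * (1 + ∑ l, w l (inner ℝ (a l) q.2)) * e q.1 * e q.2) :=
      int2 _ (PG2.mul (PG2.const 1) (PG2.snd hS))
    have h3 : ∫ q : E k × E k, G3 q.1 q.2 * e q.1 * e q.2 = ∫ q : E k × E k, (1 / 2 : ℝ) *
        ((1 + ∑ l, w l (inner ℝ (a l) q.1)) * 1 * e q.1 * e q.2 +
          1 * (1 + ∑ l, w l (inner ℝ (a l) q.2)) * e q.1 * e q.2) := by
      refine integral_congr_ae (Filter.Eventually.of_forall fun q => ?_)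
      rw [hG3]
      simp only [← Finset.sum_div, Finset.sum_add_distrib]
      ring
    rw [h3, integral_const_mul, integral_add q1 q2, p1, p2]
    ring
  rw [t2, t3] at hI
  have hfin : Z * J a U (fun x => ∑ l, φ l (w l (inner ℝ (a l) x))) ≤
      Z * (J a U (fun x => ∑ l, ψ l (inner ℝ (a l) x) * inner ℝ (m l) x) +
        B * J a U fun x => 1 + ∑ l, w l (inner ℝ (a l) x)) := by
    calc _ ≤ _ := t1
      _ ≤ _ := hI
      _ = _ := by ring
  exact le_of_mul_le_mul_left hfin hZ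

end Pool.Agent.Helper67.DF
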